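import Mathlib

/-!
# Metacompactness of spaces with a base of subinfinite rank (MP_03f7b8_gt, Q1)

* Every `R₀` space (in particular every `T₁` space) which has a base of subinfinite rank is
  hereditarily metacompact.
* Some separation is needed: the natural numbers with the initial segments as open sets form a
  `T₀` space having a base which is totally ordered by inclusion, and it is not metacompact.
-/

set_option autoImplicit false

namespace Pool.Agent.V7H47.SubinfiniteRank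

open Set Relation

/-- Every incomparable subfamily of `Γ` with nonempty intersection is finite. -/
def SubinfiniteRank {X : Type*} (Γ : Set (Set X)) : Prop :=
  ∀ Γ' : Set (Set X), Γ' ⊆ Γ → (∀ A ∈ Γ', ∀ B ∈ Γ', A ≠ B → ¬ A ⊆ B) → (⋂₀ Γ').Nonempty →
    Γ'.Finite

/-- Every open cover has a point-finite open refinement. -/
def Metacompact (X : Type*) [TopologicalSpace X] : Prop :=
  ∀ 𝒰 : Set (Set X), (∀ U ∈ 𝒰, IsOpen U) → ⋃₀ 𝒰 = univ →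
    ∃ 𝒱 : Set (Set X), (∀ V ∈ 𝒱, IsOpen V ∧ ∃ U ∈ 𝒰, V ⊆ U) ∧ ⋃₀ 𝒱 = univ ∧
      ∀ x : X, {V ∈ 𝒱 | x ∈ V}.Finite

section ends

variable {X : Type*} (𝓑 : Set (Set X))

/-- `G` is a member of `𝓑` inside `V`, and the members of `𝓑` between `G` and `V` are directed
upwards. -/
def Good (V G : Set X) : Prop :=
  G ∈ 𝓑 ∧ G ⊆ V ∧ ∀ C ∈ 𝓑, ∀ C' ∈ 𝓑, G ⊆ C → C ⊆ V → G ⊆ C' → C' ⊆ V →
    ∃ D ∈ 𝓑, C ∪ C' ⊆ D ∧ D ⊆ V

/-- the union of the members of `𝓑` between `G` and `V` -/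
def reg (V G : Set X) : Set X := ⋃₀ {C ∈ 𝓑 | G ⊆ C ∧ C ⊆ V}

/-- the directed unions of members of `𝓑` in `V` -/
def Ends (V : Set X) : Set (Set X) := {W | ∃ G, Good 𝓑 V G ∧ W = reg 𝓑 V G}

/-- every finite subset of `W` is in a member of `𝓑` inside `W` -/
def Dir (W : Set X) : Prop := ∀ F : Finset X, (F : Set X) ⊆ W → ∃ D ∈ 𝓑, (F : Set X) ⊆ D ∧ D ⊆ W

variable {𝓑}

theorem reg_subset (V G : Set X) : reg 𝓑 V G ⊆ V := by
  rintro x ⟨C, ⟨_, _, h⟩, hx⟩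
  exact h hx

theorem mem_reg {V G C : Set X} {x : X} (hC : C ∈ 𝓑) (h1 : G ⊆ C) (h2 : C ⊆ V) (hx : x ∈ C) :
    x ∈ reg 𝓑 V G := ⟨C, ⟨hC, h1, h2⟩, hx⟩

theorem Good.up {V G C : Set X} (hG : Good 𝓑 V G) (hC : C ∈ 𝓑) (h1 : G ⊆ C) (h2 : C ⊆ V) :
    Good 𝓑 V C ∧ reg 𝓑 V C = reg 𝓑 V G := by
  refine ⟨⟨hC, h2, fun D hD D' hD' a b c d => hG.2.2 D hD D' hD' (h1.trans a) b (h1.trans c) d⟩, ?_⟩
  apply Subset.antisymm
  · rintro x ⟨D, ⟨hD, a, b⟩, hx⟩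
    exact mem_reg hD (h1.trans a) b hx
  · rintro x ⟨D, ⟨hD, a, b⟩, hx⟩
    obtain ⟨E, hE, hE1, hE2⟩ := hG.2.2 D hD C hC a b h1 h2
    exact mem_reg hE (subset_union_right.trans hE1) hE2 (hE1 (Or.inl hx))

theorem dir_of_mem_ends {V W : Set X} (hW : W ∈ Ends 𝓑 V) : Dir 𝓑 W := by
  classical
  obtain ⟨G, hG, rfl⟩ := hW
  intro F
  have key : (F : Set X) ⊆ reg 𝓑 V G → ∃ D ∈ 𝓑, (F : Set X) ⊆ D ∧ G ⊆ D ∧ D ⊆ V := by
    induction F using Finset.induction_on with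
    | empty =>
      intro _
      exact ⟨G, hG.1, by simp, Subset.rfl, hG.2.1⟩
    | insert a F _ ih =>
      intro h
      rw [Finset.coe_insert, insert_subset_iff] at h
      obtain ⟨D, hD, h1, h2, h3⟩ := ih h.2
      obtain ⟨C, ⟨hC, c1, c2⟩, haC⟩ := h.1
      obtain ⟨E, hE, hE1, hE2⟩ := hG.2.2 C hC D hD c1 c2 h2 h3
      refine ⟨E, hE, ?_, c1.trans (subset_union_left.trans hE1), hE2⟩
      rw [Finset.coe_insert, insert_subset_iff]
      exact ⟨hE1 (Or.inl haC), h1.trans (subset_union_right.trans hE1)⟩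
  intro hF
  obtain ⟨D, hD, h1, h2, h3⟩ := key hF
  exact ⟨D, hD, h1, fun x hx => mem_reg hD h2 h3 hx⟩

theorem subset_of_mem_ends {V W : Set X} (hW : W ∈ Ends 𝓑 V) : W ⊆ V := by
  obtain ⟨G, _, rfl⟩ := hW
  exact reg_subset V G

/-- only finitely many ends contain a given point -/
theorem ends_finite (h𝓑 : SubinfiniteRank 𝓑) (V : Set X) (y : X) :
    {W ∈ Ends 𝓑 V | y ∈ W}.Finite := by
  have h : ∀ W ∈ {W ∈ Ends 𝓑 V | y ∈ W}, ∃ C : Set X, y ∈ C ∧ Good 𝓑 V C ∧ W = reg 𝓑 V C := by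
    rintro W ⟨⟨G, hG, rfl⟩, C, ⟨hC, h1, h2⟩, hy⟩
    obtain ⟨h3, h4⟩ := hG.up hC h1 h2
    exact ⟨C, hy, h3, h4.symm⟩
  choose! c hc1 hc2 hc3 using h
  have hinj : InjOn c {W ∈ Ends 𝓑 V | y ∈ W} := by
    intro W hW W' hW' e
    rw [hc3 W hW, hc3 W' hW', e]
  refine Finite.of_finite_image ?_ hinj
  apply h𝓑
  · rintro _ ⟨W, hW, rfl⟩
    exact (hc2 W hW).1
  · rintro _ ⟨W, hW, rfl⟩ _ ⟨W', hW', rfl⟩ hne hsub
    apply hne
    have h1 := ((hc2 W hW).up (hc2 W' hW').1 hsub (hc2 W' hW').2.1).2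
    have h2 : W = W' := by rw [hc3 W hW, hc3 W' hW', h1]
    rw [h2]
  · refine ⟨y, ?_⟩
    rintro _ ⟨W, hW, rfl⟩
    exact hc1 W hW

/-- some end contains a given point -/
theorem ends_cover (h𝓑 : SubinfiniteRank 𝓑) {V B : Set X} {y : X} (hB : B ∈ 𝓑) (hy : y ∈ B)
    (hBV : B ⊆ V) : ∃ W ∈ Ends 𝓑 V, y ∈ W := by
  by_contra hcon
  push Not at hcon
  have hno : ∀ G : Set X, (G ∈ 𝓑 ∧ B ⊆ G ∧ G ⊆ V) → ∃ C C' : Set X,
      (C ∈ 𝓑 ∧ B ⊆ C ∧ C ⊆ V) ∧ (C' ∈ 𝓑 ∧ B ⊆ C' ∧ C' ⊆ V) ∧ G ⊆ C ∧ G ⊆ C' ∧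
      ∀ D ∈ 𝓑, D ⊆ V → C ⊆ D → ¬ C' ⊆ D := by
    rintro G ⟨hG, h1, h2⟩
    have hng : ¬ Good 𝓑 V G := by
      intro hg
      exact hcon _ ⟨G, hg, rfl⟩ (mem_reg hG Subset.rfl h2 (h1 hy))
    by_contra hc
    push Not at hc
    apply hng
    refine ⟨hG, h2, fun C hC C' hC' a b c d => ?_⟩
    obtain ⟨D, hD, d1, d2, d3⟩ := hc C C' ⟨hC, h1.trans a, b⟩ ⟨hC', h1.trans c, d⟩ a c
    exact ⟨D, hD, union_subset d2 d3, d1⟩
  choose! a b ha hb hGa hGb hab using hno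
  let G : ℕ → Set X := fun n => Nat.rec B (fun _ G => b G) n
  have hG0 : G 0 = B := rfl
  have hGs : ∀ n, G (n + 1) = b (G n) := fun n => rfl
  have hGP : ∀ n, G n ∈ 𝓑 ∧ B ⊆ G n ∧ G n ⊆ V := by
    intro n
    induction n with
    | zero => exact ⟨hB, Subset.rfl, hBV⟩
    | succ n ih => rw [hGs]; exact hb _ ih
  have hmono : Monotone G := by
    apply monotone_nat_of_le_succ
    intro n
    rw [hGs]
    exact hGb _ (hGP n)
  have hinc : ∀ m n, m < n → ¬ a (G m) ⊆ a (G n) ∧ ¬ a (G n) ⊆ a (G m) := by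
    intro m n hmn
    have h1 : b (G m) ⊆ a (G n) := by
      have := hmono (Nat.succ_le_of_lt hmn)
      rw [Nat.succ_eq_add_one, hGs] at this
      exact Subset.trans this (hGa _ (hGP n))
    refine ⟨fun h => ?_, fun h => ?_⟩
    · exact hab _ (hGP m) _ (ha _ (hGP n)).1 (ha _ (hGP n)).2.2 h h1
    · exact hab _ (hGP m) _ (ha _ (hGP m)).1 (ha _ (hGP m)).2.2 Subset.rfl (h1.trans h)
  have hinj : Function.Injective fun n => a (G n) := by
    intro m n e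
    simp only at e
    rcases lt_trichotomy m n with h | h | h
    · exact absurd e.le (hinc m n h).1
    · exact h
    · exact absurd e.le (hinc n m h).2
  refine infinite_range_of_injective hinj (h𝓑 _ ?_ ?_ ⟨y, ?_⟩)
  · rintro _ ⟨n, rfl⟩
    exact (ha _ (hGP n)).1
  · rintro _ ⟨m, rfl⟩ _ ⟨n, rfl⟩ hne
    rcases lt_trichotomy m n with h | h | h
    · exact (hinc m n h).1
    · exact absurd (by rw [h]) hne
    · exact (hinc n m h).2
  · rintro _ ⟨n, rfl⟩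
    exact (ha _ (hGP n)).2.1 hy

end ends

section tree

variable {X : Type*} [TopologicalSpace X] {𝓑 𝒰 : Set (Set X)}

/-- one step down the tree of regions -/
def Step (𝓑 𝒰 : Set (Set X)) (c : Set X → X) (W W' : Set X) : Prop :=
  (∀ U ∈ 𝒰, ¬ W ⊆ U) ∧ W' ∈ Ends 𝓑 (W \ closure {c W})

/-- the regions reached -/
def Reach (𝓑 𝒰 : Set (Set X)) (c : Set X → X) (W : Set X) : Prop :=
  ∃ W₀ ∈ Ends 𝓑 univ, ReflTransGen (Step 𝓑 𝒰 c) W₀ W

theorem Reach.dir {c : Set X → X} {W : Set X} (h : Reach 𝓑 𝒰 c W) : Dir 𝓑 W := by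
  obtain ⟨W₀, h0, h⟩ := h
  induction h with
  | refl => exact dir_of_mem_ends h0
  | tail _ h _ => exact dir_of_mem_ends h.2

theorem wf (h𝓑 : SubinfiniteRank 𝓑) (href : ∀ B ∈ 𝓑, ∃ U ∈ 𝒰, B ⊆ U) (c : Set X → X)
    (hc : ∀ W : Set X, W.Nonempty → c W ∈ W) (y : X) :
    WellFounded fun W' W : Set X => Dir 𝓑 W ∧ y ∈ W ∧ y ∈ W' ∧ Step 𝓑 𝒰 c W W' := by
  classical
  have : Nonempty X := ⟨y⟩
  rw [wellFounded_iff_isEmpty_descending_chain]
  refine ⟨fun ⟨f, hf⟩ => ?_⟩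
  have hd : ∀ n, Dir 𝓑 (f n) := fun n => (hf n).1
  have hy : ∀ n, y ∈ f n := fun n => (hf n).2.1
  have hU : ∀ n, ∀ U ∈ 𝒰, ¬ f n ⊆ U := fun n => (hf n).2.2.2.1
  have hsub : ∀ n, f (n + 1) ⊆ f n \ closure {c (f n)} := fun n =>
    subset_of_mem_ends (hf n).2.2.2.2
  have hanti : Antitone f := antitone_nat_of_succ_le fun n => (hsub n).trans sdiff_subset
  obtain ⟨g, hg1, hg2⟩ := exists_seq_of_forall_finset_exists
    (fun p : ℕ × Set X => p.2 ∈ 𝓑 ∧ p.2 ⊆ f p.1 ∧ y ∈ p.2 ∧ c (f p.1) ∈ p.2)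
    (fun p q => p.1 < q.1 ∧ ¬ q.2 ⊆ p.2) (by
      intro s hs
      let n := s.sup (fun p => p.1 + 1)
      have hn : ∀ p ∈ s, p.1 < n := fun p hp =>
        Nat.lt_of_succ_le (Finset.le_sup (f := fun p : ℕ × Set X => p.1 + 1) hp)
      have hex : ∀ p : ℕ × Set X, p ∈ s → ∃ z ∈ f n, z ∉ p.2 := by
        intro p hp
        obtain ⟨U, hU1, hU2⟩ := href _ (hs p hp).1
        have := hU n U hU1
        rw [not_subset] at this
        obtain ⟨z, hz, hzU⟩ := this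
        exact ⟨z, hz, fun h => hzU (hU2 h)⟩
      choose! z hz1 hz2 using hex
      obtain ⟨D, hD, hD1, hD2⟩ := hd n (insert y (insert (c (f n)) (s.image z))) (by
        intro w hw
        simp only [Finset.coe_insert, Finset.coe_image, mem_insert_iff, mem_image,
          Finset.mem_coe] at hw
        rcases hw with rfl | rfl | ⟨p, hp, rfl⟩
        · exact hy n
        · exact hc _ ⟨y, hy n⟩
        · exact hz1 p hp)
      refine ⟨(n, D), ⟨hD, hD2, hD1 (by simp), hD1 (by simp)⟩, fun p hp => ⟨hn p hp, fun h => ?_⟩⟩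
      refine hz2 p hp (h (hD1 ?_))
      simp only [Finset.coe_insert, Finset.coe_image, mem_insert_iff, mem_image, Finset.mem_coe]
      exact Or.inr (Or.inr ⟨p, hp, rfl⟩))
  have hinc : ∀ m n, m < n → ¬ (g n).2 ⊆ (g m).2 ∧ ¬ (g m).2 ⊆ (g n).2 := by
    intro m n hmn
    refine ⟨(hg2 m n hmn).2, fun h => ?_⟩
    have h1 : c (f (g m).1) ∈ (g n).2 := h (hg1 m).2.2.2
    have h2 : c (f (g m).1) ∈ f ((g m).1 + 1) :=
      hanti (Nat.succ_le_of_lt (hg2 m n hmn).1) ((hg1 n).2.1 h1)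
    exact (hsub _ h2).2 (subset_closure rfl)
  have hinj : Function.Injective fun n => (g n).2 := by
    intro m n e
    simp only at e
    rcases lt_trichotomy m n with h | h | h
    · exact absurd e.le (hinc m n h).2
    · exact h
    · exact absurd e.le (hinc n m h).1
  refine infinite_range_of_injective hinj (h𝓑 _ ?_ ?_ ⟨y, ?_⟩)
  · rintro _ ⟨n, rfl⟩
    exact (hg1 n).1
  · rintro _ ⟨m, rfl⟩ _ ⟨n, rfl⟩ hne
    rcases lt_trichotomy m n with h | h | h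
    · exact (hinc m n h).2
    · exact absurd (by rw [h]) hne
    · exact (hinc n m h).1
  · rintro _ ⟨n, rfl⟩
    exact (hg1 n).2.2.1

theorem reach_finite (h𝓑 : SubinfiniteRank 𝓑) (href : ∀ B ∈ 𝓑, ∃ U ∈ 𝒰, B ⊆ U) (c : Set X → X)
    (hc : ∀ W : Set X, W.Nonempty → c W ∈ W) (y : X) :
    {W | Reach 𝓑 𝒰 c W ∧ y ∈ W}.Finite := by
  have h1 : ∀ W : Set X, Dir 𝓑 W → y ∈ W →
      {W' | ReflTransGen (fun A B => y ∈ B ∧ Step 𝓑 𝒰 c A B) W W'}.Finite := by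
    intro W
    refine (wf h𝓑 href c hc y).induction (C := fun W => Dir 𝓑 W → y ∈ W →
      {W' | ReflTransGen (fun A B => y ∈ B ∧ Step 𝓑 𝒰 c A B) W W'}.Finite) W ?_
    intro W ih hW hy
    have hfin : {W₁ | y ∈ W₁ ∧ Step 𝓑 𝒰 c W W₁}.Finite :=
      (ends_finite h𝓑 (W \ closure {c W}) y).subset fun W₁ h => ⟨h.2.2, h.1⟩
    refine ((finite_singleton W).union (hfin.biUnion (t := fun W₁ =>
      {W' | ReflTransGen (fun A B => y ∈ B ∧ Step 𝓑 𝒰 c A B) W₁ W'}) ?_)).subset ?_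
    · intro W₁ hW₁
      exact ih W₁ ⟨hW, hy, hW₁.1, hW₁.2⟩ (dir_of_mem_ends hW₁.2.2) hW₁.1
    · intro W' hW'
      rcases ReflTransGen.cases_head hW' with h | ⟨W₁, h2, h3⟩
      · exact Or.inl h.symm
      · refine Or.inr ?_
        rw [mem_iUnion₂]
        exact ⟨W₁, h2, h3⟩
  refine ((ends_finite h𝓑 univ y).biUnion (t := fun W₀ =>
    {W' | ReflTransGen (fun A B => y ∈ B ∧ Step 𝓑 𝒰 c A B) W₀ W'}) ?_).subset ?_
  · intro W₀ hW₀
    exact h1 W₀ (dir_of_mem_ends hW₀.1) hW₀.2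
  · rintro W ⟨⟨W₀, h0, h⟩, hy⟩
    have key : y ∈ W₀ ∧ ReflTransGen (fun A B => y ∈ B ∧ Step 𝓑 𝒰 c A B) W₀ W := by
      induction h with
      | refl => exact ⟨hy, ReflTransGen.refl⟩
      | tail _ h ih =>
        obtain ⟨h2, h3⟩ := ih (subset_of_mem_ends h.2 hy).1
        exact ⟨h2, h3.tail ⟨hy, h⟩⟩
    rw [mem_iUnion₂]
    exact ⟨W₀, ⟨h0, key.1⟩, key.2⟩

end tree

/-- **Main theorem** for one space. -/
theorem metacompact_of_base {X : Type*} [TopologicalSpace X] [R0Space X] {𝓑₀ : Set (Set X)}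
    (hb : TopologicalSpace.IsTopologicalBasis 𝓑₀) (h𝓑₀ : SubinfiniteRank 𝓑₀) :
    Metacompact X := by
  classical
  intro 𝒰 h𝒰 hcov
  rcases isEmpty_or_nonempty X with hX | ⟨⟨x₀⟩⟩
  · refine ⟨∅, by simp, ?_, by simp⟩
    ext x
    exact (hX.false x).elim
  let 𝓑 : Set (Set X) := {B ∈ 𝓑₀ | ∃ U ∈ 𝒰, B ⊆ U}
  have h𝓑 : SubinfiniteRank 𝓑 := fun Γ hΓ => h𝓑₀ Γ (hΓ.trans fun B hB => hB.1)
  have href : ∀ B ∈ 𝓑, ∃ U ∈ 𝒰, B ⊆ U := fun B hB => hB.2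
  have hopen : ∀ B ∈ 𝓑, IsOpen B := fun B hB => hb.isOpen hB.1
  have hloc : ∀ (O : Set X) (y : X), IsOpen O → y ∈ O → ∃ B ∈ 𝓑, y ∈ B ∧ B ⊆ O := by
    intro O y hO hy
    have : y ∈ ⋃₀ 𝒰 := by rw [hcov]; trivial
    obtain ⟨U, hU, hyU⟩ := this
    obtain ⟨B, hB, hyB, hBO⟩ := hb.exists_subset_of_mem_open (⟨hy, hyU⟩ : y ∈ O ∩ U)
      (hO.inter (h𝒰 U hU))
    exact ⟨B, ⟨hB, U, hU, hBO.trans inter_subset_right⟩, hyB, hBO.trans inter_subset_left⟩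
  let c : Set X → X := fun W => if h : W.Nonempty then h.some else x₀
  have hc : ∀ W : Set X, W.Nonempty → c W ∈ W := by
    intro W hW
    simp only [c, hW, dif_pos]
    exact hW.some_mem
  have hopenR : ∀ W, Reach 𝓑 𝒰 c W → IsOpen W := by
    intro W hW
    rw [isOpen_iff_forall_mem_open]
    intro y hy
    obtain ⟨D, hD, h1, h2⟩ := hW.dir {y} (by simpa using hy)
    exact ⟨D, h2, hopen D hD, h1 (by simp)⟩
  have hb' : ∀ W : Set X, ∃ B : Set X, (Reach 𝓑 𝒰 c W → W.Nonempty →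
      B ∈ 𝓑 ∧ c W ∈ B ∧ B ⊆ W) := by
    intro W
    by_cases h : Reach 𝓑 𝒰 c W ∧ W.Nonempty
    · obtain ⟨D, hD, h1, h2⟩ := h.1.dir {c W} (by simpa using hc W h.2)
      exact ⟨D, fun _ _ => ⟨hD, h1 (by simp), h2⟩⟩
    · exact ⟨∅, fun h1 h2 => absurd ⟨h1, h2⟩ h⟩
  choose b hbW using hb'
  have hne : ∀ W : Set X, (∀ U ∈ 𝒰, ¬ W ⊆ U) → W.Nonempty := by
    intro W hW
    rw [nonempty_iff_ne_empty]
    rintro rfl
    have : x₀ ∈ ⋃₀ 𝒰 := by rw [hcov]; trivial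
    obtain ⟨U, hU, _⟩ := this
    exact hW U hU (empty_subset _)
  refine ⟨{W | Reach 𝓑 𝒰 c W ∧ ∃ U ∈ 𝒰, W ⊆ U} ∪
    {B | ∃ W, Reach 𝓑 𝒰 c W ∧ (∀ U ∈ 𝒰, ¬ W ⊆ U) ∧ B = b W}, ?_, ?_, ?_⟩
  · rintro V (⟨h1, h2⟩ | ⟨W, h1, h2, rfl⟩)
    · exact ⟨hopenR V h1, h2⟩
    · have := hbW W h1 (hne W h2)
      exact ⟨hopen _ this.1, href _ this.1⟩
  · rw [eq_univ_iff_forall]
    intro y
    -- a minimal region containing `y`
    have hS : {W | Reach 𝓑 𝒰 c W ∧ y ∈ W}.Nonempty := by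
      obtain ⟨B, hB, hyB, hBO⟩ := hloc univ y isOpen_univ trivial
      obtain ⟨W, hW, hyW⟩ := ends_cover h𝓑 hB hyB hBO
      exact ⟨W, ⟨W, hW, ReflTransGen.refl⟩, hyW⟩
    obtain ⟨W, ⟨hW, hyW⟩, hmin⟩ := (wf h𝓑 href c hc y).has_min _ hS
    by_cases hT : ∃ U ∈ 𝒰, W ⊆ U
    · exact ⟨W, Or.inl ⟨hW, hT⟩, hyW⟩
    · push Not at hT
      have hWne := hne W hT
      obtain ⟨hB1, hB2, hB3⟩ := hbW W hW hWne
      by_cases hyc : y ∈ closure {c W}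
      · refine ⟨b W, Or.inr ⟨W, hW, hT, rfl⟩, ?_⟩
        have h1 : c W ⤳ y := specializes_iff_mem_closure.2 hyc
        have h2 : y ⤳ c W := specializes_comm.1 h1
        exact h2.mem_open (hopen _ hB1) hB2
      · exfalso
        obtain ⟨B, hB, hyB, hBO⟩ := hloc (W \ closure {c W}) y
          ((hopenR W hW).sdiff isClosed_closure) ⟨hyW, hyc⟩
        obtain ⟨W', hW', hyW'⟩ := ends_cover h𝓑 hB hyB hBO
        obtain ⟨W₀, h0, h⟩ := hW
        exact hmin W' ⟨⟨W₀, h0, h.tail ⟨hT, hW'⟩⟩, hyW'⟩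
          ⟨(Reach.dir (𝒰 := 𝒰) (c := c) ⟨W₀, h0, h⟩), hyW, hyW', hT, hW'⟩
  · intro y
    have hfin := reach_finite h𝓑 href c hc y
    refine (hfin.union (hfin.image b)).subset ?_
    rintro V ⟨(⟨h1, h2⟩ | ⟨W, h1, h2, rfl⟩), hy⟩
    · exact Or.inl ⟨h1, hy⟩
    · refine Or.inr ⟨W, ⟨h1, ?_⟩, rfl⟩
      exact (hbW W h1 (hne W h2)).2.2 hy

/-- bases of subinfinite rank pass to subspaces -/
theorem subinfinite_sub {X : Type*} {𝓑 : Set (Set X)} (h : SubinfiniteRank 𝓑) (Y : Set X) :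
    SubinfiniteRank ((fun B : Set X => (Subtype.val ⁻¹' B : Set Y)) '' 𝓑) := by
  intro Γ hΓ hinc hne
  choose! f hf1 hf2 using hΓ
  have hfin : (f '' Γ).Finite := by
    apply h
    · rintro _ ⟨A, hA, rfl⟩
      exact hf1 hA
    · rintro _ ⟨A, hA, rfl⟩ _ ⟨B, hB, rfl⟩ hAB hsub
      refine hinc A hA B hB (fun e => hAB (by rw [e])) ?_
      rw [← hf2 hA, ← hf2 hB]
      exact preimage_mono hsub
    · obtain ⟨y, hy⟩ := hne
      refine ⟨y, ?_⟩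
      rintro _ ⟨A, hA, rfl⟩
      have := hy A hA
      rw [← hf2 hA] at this
      exact this
  refine Finite.of_finite_image hfin ?_
  intro A hA B hB e
  rw [← hf2 hA, ← hf2 hB, e]

/-- The topology on `ℕ` whose open sets are the initial segments. -/
def initialTopology : TopologicalSpace ℕ where
  IsOpen s := IsLowerSet s
  isOpen_univ := isLowerSet_univ
  isOpen_inter _ _ hs ht := hs.inter ht
  isOpen_sUnion _ h := isLowerSet_sUnion h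

/-- **Answer to Q1.** Every `R₀` space (in particular every `T₁` space) with a base of subinfinite
rank is hereditarily metacompact; and a separation axiom is needed, since there is a countable `T₀`
space with a base totally ordered by inclusion which is not metacompact. -/
theorem result :
    (∀ (X : Type*) [TopologicalSpace X] [R0Space X] (𝓑 : Set (Set X)),
      TopologicalSpace.IsTopologicalBasis 𝓑 → SubinfiniteRank 𝓑 → ∀ Y : Set X, Metacompact Y) ∧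
    (∃ τ : TopologicalSpace ℕ, @T0Space ℕ τ ∧
      (∃ 𝓑 : Set (Set ℕ), @TopologicalSpace.IsTopologicalBasis ℕ τ 𝓑 ∧
        (∀ A ∈ 𝓑, ∀ B ∈ 𝓑, A ⊆ B ∨ B ⊆ A) ∧ SubinfiniteRank 𝓑) ∧ ¬ @Metacompact ℕ τ) := by
  refine ⟨?_, ?_⟩
  · intro X _ _ 𝓑 hb h𝓑 Y
    exact metacompact_of_base (hb.induced _) (subinfinite_sub h𝓑 Y)
  · letI τ : TopologicalSpace ℕ := initialTopology
    have hop : ∀ s : Set ℕ, IsOpen s ↔ IsLowerSet s := fun s => Iff.rfl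
    refine ⟨τ, ?_, ⟨range (fun n : ℕ => Iic n), ?_, ?_, ?_⟩, ?_⟩
    · refine ⟨fun x y h => ?_⟩
      have h1 : x ≤ y := (h.mem_open_iff ((hop (Iic y)).2 (isLowerSet_Iic y))).2 (mem_Iic.2 le_rfl)
      have h2 : y ≤ x := (h.mem_open_iff ((hop (Iic x)).2 (isLowerSet_Iic x))).1 (mem_Iic.2 le_rfl)
      exact le_antisymm h1 h2
    · refine TopologicalSpace.isTopologicalBasis_of_isOpen_of_nhds ?_ ?_
      · rintro _ ⟨n, rfl⟩
        exact (hop _).2 (isLowerSet_Iic n)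
      · intro a u ha hu
        refine ⟨Iic a, ⟨a, rfl⟩, mem_Iic.2 le_rfl, fun b hb => (hop u).1 hu (mem_Iic.1 hb) ha⟩
    · rintro _ ⟨m, rfl⟩ _ ⟨n, rfl⟩
      rcases le_total m n with h | h
      · exact Or.inl (Iic_subset_Iic.2 h)
      · exact Or.inr (Iic_subset_Iic.2 h)
    · intro Γ hΓ hinc _
      apply Set.Subsingleton.finite
      intro A hA B hB
      by_contra hne
      obtain ⟨m, rfl⟩ := hΓ hA
      obtain ⟨n, rfl⟩ := hΓ hB
      rcases le_total m n with h | h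
      · exact hinc _ hA _ hB hne (Iic_subset_Iic.2 h)
      · exact hinc _ hB _ hA (Ne.symm hne) (Iic_subset_Iic.2 h)
    · intro hM
      obtain ⟨𝒱, h1, h2, h3⟩ := hM (range (fun n : ℕ => Iic n))
        (by rintro _ ⟨n, rfl⟩; exact (hop _).2 (isLowerSet_Iic n))
        (by
          rw [eq_univ_iff_forall]
          exact fun n => ⟨Iic n, ⟨n, rfl⟩, mem_Iic.2 le_rfl⟩)
      have hcov : (univ : Set ℕ) ⊆ ⋃ V ∈ {V ∈ 𝒱 | 0 ∈ V}, V := by
        intro n _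
        have : n ∈ ⋃₀ 𝒱 := by rw [h2]; trivial
        obtain ⟨V, hV, hn⟩ := this
        rw [mem_iUnion₂]
        exact ⟨V, ⟨hV, (hop V).1 (h1 V hV).1 (Nat.zero_le n) hn⟩, hn⟩
      refine Set.infinite_univ (((h3 0).biUnion ?_).subset hcov)
      rintro V ⟨hV, _⟩
      obtain ⟨_, ⟨n, rfl⟩, hVn⟩ := (h1 V hV).2
      exact (finite_Iic n).subset hVn

end Pool.Agent.V7H47.SubinfiniteRank
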